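import Mathlib

set_option autoImplicit false

namespace Pool.Agent.Results.MP_af8792_co.Counter

open Finset

abbrev Cell (m n : ℕ) := Fin m × Fin n

variable {m n : ℕ} (E₁ : Finset (Cell m n)) (E₂ : Finset (Cell m n × Cell m n))

def Occ (c : Cell m n) : Prop := c ∈ E₁ ∨ ∃ e ∈ E₂, c = e.1 ∨ c = e.2

/-- 2-edges use different rows and columns, and no cell is occupied by two edges. -/
def Valid : Prop := (∀ e ∈ E₂, e.1.1 ≠ e.2.1 ∧ e.1.2 ≠ e.2.2 ∧ e.1 ∉ E₁ ∧ e.2 ∉ E₁) ∧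
  ∀ e ∈ E₂, ∀ f ∈ E₂, e ≠ f → e.1 ≠ f.1 ∧ e.1 ≠ f.2 ∧ e.2 ≠ f.2

def GenC4 : Prop :=
  (∃ i k j l, i ≠ k ∧ j ≠ l ∧ (i, j) ∈ E₁ ∧ (i, l) ∈ E₁ ∧ (k, j) ∈ E₁ ∧ (k, l) ∈ E₁) ∨
  (∃ i j k l, ((i, j), (k, l)) ∈ E₂ ∧ Occ E₁ E₂ (i, l) ∧ Occ E₁ E₂ (k, j)) ∨
  ∃ i j p q k l, ((i, j), (p, q)) ∈ E₂ ∧ [(k, l), (k, j), (k, q), (i, l), (p, l)].Nodup ∧
    ∀ c ∈ [(k, l), (k, j), (k, q), (i, l), (p, l)], Occ E₁ E₂ c

noncomputable def z2 (m n : ℕ) : ℕ :=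
  sSup {N | ∃ (E₁ : Finset (Cell m n)) (E₂ : Finset (Cell m n × Cell m n)),
    Valid E₁ E₂ ∧ ¬ GenC4 E₁ E₂ ∧ #E₁ + #E₂ = N}

lemma low (s : ℕ) : s * s ≤ z2 (s + s) (s + s) := by
  let g : Fin s × Fin s → Cell (s + s) (s + s) × Cell (s + s) (s + s) := fun x =>
    ((x.1.castAdd s, x.2.castAdd s), (x.1.natAdd s, x.2.natAdd s))
  have m : ∀ e ∈ univ.image g, e.1.1.1 < s ∧ e.1.2.1 < s ∧ e.2.1.1 = s + e.1.1.1 ∧
      e.2.2.1 = s + e.1.2.1 := fun e he => by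
    obtain ⟨x, -, rfl⟩ := mem_image.1 he; simp [g, add_comm]
  have o : ∀ i j, Occ ∅ (univ.image g) (i, j) → (i.1 < s ↔ j.1 < s) := by
    rintro i j (h | ⟨e, he, h | h⟩)
    · simp at h
    all_goals have := m e he; rw [← h] at this; simp only at this; omega
  refine le_csSup ⟨?_, ?_⟩ ⟨∅, univ.image g, ⟨fun e he => ?_, fun e he f hf n => ?_⟩, ?_, ?_⟩
  · exact Fintype.card (Cell (s + s) (s + s)) + Fintype.card (Cell (s + s) (s + s) × Cell (s + s) (s + s))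
  · rintro _ ⟨_, _, -, -, rfl⟩; exact add_le_add (card_le_univ _) (card_le_univ _)
  · have := m e he; simp only [ne_eq, Fin.ext_iff, notMem_empty, not_false_eq_true, and_true]; omega
  · have := m e he; have := m f hf; simp only [ne_eq, Prod.ext_iff, Fin.ext_iff] at n ⊢; omega
  · rintro (⟨_, _, _, _, _, _, h, _⟩ | ⟨i, j, k, l, h, a, -⟩ | ⟨i, j, p, q, k, l, h, -, a⟩)
    · simp at h
    · have := m _ h; have := o _ _ a; simp only at *; omega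
    · have := m _ h; have := o k j (a _ (by simp)); have := o k q (a _ (by simp)); simp only at *; omega
  · rw [card_image_of_injective _ fun x y h => by simpa [g, Prod.ext_iff] using congrArg Prod.fst h]
    simp

theorem result : ¬ ∃ C : ℝ, ∀ m n : ℕ, 2 ≤ m → 2 ≤ n → (z2 m n : ℝ) ≤ C * (m * √n + n) := by
  rintro ⟨C, h⟩
  obtain ⟨t, ht⟩ := exists_nat_gt (max (4 * C) 1)
  have a : 4 * C < t := (le_max_left _ _).trans_lt ht
  have b : (1 : ℝ) < t := (le_max_right _ _).trans_lt ht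
  have b' : 1 < t := by exact_mod_cast b
  have := h (2 * t ^ 2 + 2 * t ^ 2) (2 * t ^ 2 + 2 * t ^ 2) (by nlinarith) (by nlinarith)
  have l : ((2 * t ^ 2 * (2 * t ^ 2) : ℕ) : ℝ) ≤ _ := Nat.cast_le.2 (low (2 * t ^ 2))
  have r : √((2 * t ^ 2 + 2 * t ^ 2 : ℕ) : ℝ) = 2 * t := by
    rw [show ((2 * t ^ 2 + 2 * t ^ 2 : ℕ) : ℝ) = (2 * t) ^ 2 by push_cast; ring, Real.sqrt_sq (by positivity)]
  have k := l.trans this
  rw [r] at k
  push_cast at k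
  have p : (0 : ℝ) < t ^ 2 := by positivity
  have : (t : ℝ) ^ 2 ≤ C * (2 * t + 1) := le_of_mul_le_mul_left (by nlinarith) (mul_pos four_pos p)
  nlinarith

end Pool.Agent.Results.MP_af8792_co.Counter
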